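import Mathlib

/-!
# Satake parameters over function fields and L-functions

Let `k` be a global function field with field of constants `𝔽_q`, `G` a quasi-split connected
reductive group over `k`, `π` a cuspidal automorphic representation of `G` with unitary central
character, `r` a representation of dimension `n` of the L-group, `S` a nonempty finite set of places
outside of which `π` is unramified, `P` the set of the other places, `q_v = q ^ (deg v)`. Let
`α_{1,v}, ..., α_{n,v}` be the eigenvalues of the Satake parameter of `π_v`, `v ∈ P`, in `r`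
(`Parameters.A`). L-functions are Euler products over `P`, as functions of `u = q^{-s}` (`IsL`).

The known theorems that are used are collected in three structures.
* `CuspidalGL`: the unitary cuspidal representations of the groups `GL_m`, `m ≥ 1`, unramified at the
  places of `P`: their Satake parameters have absolute value one, the zeros of the Rankin-Selberg
  L-functions in `Re s > 0` have the real part `1/2` (L. Lafforgue); these are rational functions of
  `q^{-s}`, whose poles in `Re s > 0` have the real part one, and `s = 1` is a pole for a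
  representation and its dual (Jacquet, Piatetski-Shapiro, Shalika).
* `Parameters`: the parameters of `π_v` in `r` are stable under `a ↦ 1 / conj a`, as `π_v` is unitary;
  they are the eigenvalues of Frobenius in `r ∘ σ`, where `σ` is the semisimple Galois
  representation attached to `π` by V. Lafforgue; `r ∘ σ` is a sum of irreducible representations,
  which by L. Lafforgue are given by cuspidal representations, unitary up to a twist `|·| ^ (-c_i)`.
* `HighlyRamified`, `RamifiedSequence`: `L(s, τ × χ)` is a polynomial in `q^{-s}`, whose zeros in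
  `Re s > 0` are on the critical line; their number is the dimension of `τ` times the exponent of the
  conductor of `χ` up to a constant (Grothendieck-Ogg-Shafarevich); the characters are unramified
  at the places of `P`, highly ramified at one place of `S`.
-/

set_option autoImplicit false

namespace Pool.Agent.W2helper62.RF

open Polynomial Filter Topology

noncomputable section

/-- The Euler factor `∏ (1 - a q_v^{-s})⁻¹` at the place `v`, as a function of `u = q^{-s}`. -/
def factor {P : Type} (deg : P → ℕ) (A : P → Multiset ℂ) (u : ℂ) (v : P) : ℂ :=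
  ((A v).map fun a => (1 - a * u ^ deg v)⁻¹).prod

/-- The products `a b` of the members of two families of Satake parameters. -/
def pair {P : Type} (A B : P → Multiset ℂ) (v : P) : Multiset ℂ :=
  (A v).bind fun a => (B v).map fun b => a * b

/-- The Satake parameters of the dual representation. -/
def dualParams {P : Type} (A : P → Multiset ℂ) (v : P) : Multiset ℂ :=
  (A v).map fun a => a⁻¹

/-- The Euler product of the parameters `A` is the rational function `N / D` of `u = q^{-s}`. -/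
def IsL {P : Type} (deg : P → ℕ) (A : P → Multiset ℂ) (N D : ℂ[X]) : Prop :=
  D.eval 0 ≠ 0 ∧ ∃ ρ : ℝ, 0 < ρ ∧ ∀ u : ℂ, ‖u‖ < ρ →
    HasProd (factor deg A u) (N.eval u / D.eval u)

/-- `L^S(s, A)` is a rational function of `q^{-s}` without poles in `Re s > σ`. -/
def HolomorphicRight (q : ℝ) {P : Type} (deg : P → ℕ) (A : P → Multiset ℂ) (σ : ℝ) : Prop :=
  ∃ N D, IsL deg A N D ∧ ∀ u : ℂ, ‖u‖ < q ^ (-σ) → D.eval u ≠ 0

/-- `L^S(s, A)` is a rational function of `q^{-s}` without zeros in `Re s > σ`. -/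
def NoZerosRight (q : ℝ) {P : Type} (deg : P → ℕ) (A : P → Multiset ℂ) (σ : ℝ) : Prop :=
  ∃ N D, IsL deg A N D ∧ ∀ u : ℂ, ‖u‖ < q ^ (-σ) → N.eval u ≠ 0

/-- `L^S(s, A)` is a rational function of `q^{-s}` without zeros in `Re s ≥ σ`. -/
def NoZerosFrom (q : ℝ) {P : Type} (deg : P → ℕ) (A : P → Multiset ℂ) (σ : ℝ) : Prop :=
  ∃ N D, IsL deg A N D ∧ ∀ u : ℂ, ‖u‖ ≤ q ^ (-σ) → N.eval u ≠ 0

/-- Known properties of the unitary cuspidal automorphic representations of the groups `GL_m`,
`m ≥ 1`, over `k` that are unramified at the places of `P`. -/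
structure CuspidalGL (q : ℝ) (P : Type) (deg : P → ℕ) where
  /-- the representations -/
  Rep : Type
  /-- the number `m` for a representation of `GL_m` -/
  dim : Rep → ℕ
  /-- the Satake parameters -/
  satake : Rep → P → Multiset ℂ
  dim_pos : ∀ τ, 0 < dim τ
  card_satake : ∀ τ v, (satake τ v).card = dim τ
  /-- the Ramanujan conjecture for `GL_m` (L. Lafforgue) -/
  norm_satake : ∀ τ v, ∀ b ∈ satake τ v, ‖b‖ = 1
  /-- numerator and denominator of the Rankin-Selberg L-function `L(s, τ × τ')` -/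
  num : Rep → Rep → ℂ[X]
  den : Rep → Rep → ℂ[X]
  isL : ∀ τ τ', IsL deg (pair (satake τ) (satake τ')) (num τ τ') (den τ τ')
  /-- the Riemann hypothesis: all zeros in `Re s > 0` have the real part `1/2` (L. Lafforgue) -/
  zeros : ∀ τ τ' (u : ℂ), ‖u‖ < 1 → (num τ τ').eval u = 0 → ‖u‖ = q ^ (-(1 / 2) : ℝ)
  /-- all poles in `Re s > 0` have the real part `1` -/
  poles : ∀ τ τ' (u : ℂ), ‖u‖ < 1 → (den τ τ').eval u = 0 → ‖u‖ = q ^ (-1 : ℝ)
  /-- the contragredient representation; `L(s, τ × τ^∨)` has a pole at `s = 1` -/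
  dual : Rep → Rep
  dim_dual : ∀ τ, dim (dual τ) = dim τ
  satake_dual : ∀ τ, satake (dual τ) = dualParams (satake τ)
  pole_dual : ∀ τ, (den τ (dual τ)).eval ((q ^ (-1 : ℝ) : ℝ) : ℂ) = 0

/-- The eigenvalues of the Satake parameters of `π` in a representation `r` of dimension `n`, and
their description by V. Lafforgue and L. Lafforgue. -/
structure Parameters {q : ℝ} {P : Type} {deg : P → ℕ} (G : CuspidalGL q P deg) (n : ℕ) where
  /-- the eigenvalues `α_{j,v}` -/
  A : P → Multiset ℂ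
  card_A : ∀ v, (A v).card = n
  /-- `π_v` is unitary -/
  hermitian : ∀ v, (A v).map (fun a => ((starRingEnd ℂ) a)⁻¹) = A v
  /-- the irreducible constituents `τ_i |·| ^ (-c_i)` of `r ∘ σ`, `i = 1, ..., k` -/
  k : ℕ
  τ : Fin k → G.Rep
  c : Fin k → ℝ
  decomp : ∀ v, A v = ∑ i, (G.satake (τ i) v).map fun b => ((q ^ c i : ℝ) : ℂ) ^ deg v * b

/-- `χ` is a highly ramified character: the L-functions `L(s, τ_i × χ)` are polynomials in `q^{-s}`
with at least one zero on the critical line. -/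
def HighlyRamified {q : ℝ} {P : Type} {deg : P → ℕ} {G : CuspidalGL q P deg} {n : ℕ}
    (π : Parameters G n) (χ : G.Rep) : Prop :=
  G.dim χ = 1 ∧ ∀ i, G.den (π.τ i) χ = 1 ∧
    ∃ u : ℂ, ‖u‖ = q ^ (-(1 / 2) : ℝ) ∧ (G.num (π.τ i) χ).eval u = 0

open Classical in
/-- The number of zeros with `Re s = 1/2 + c`, with multiplicity, of the polynomial `N` in
`u = q^{-s}`. -/
def zerosOn (q : ℝ) (N : ℂ[X]) (c : ℝ) : ℕ :=
  (N.roots.filter fun u => ‖u‖ = q ^ (-(1 / 2 + c))).card

open Classical in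
/-- The number of the parameters `a` at the place `v` with `|a| = q_v^c`. -/
def paramsOn (q : ℝ) {P : Type} (deg : P → ℕ) (A : P → Multiset ℂ) (v : P) (c : ℝ) : ℕ :=
  ((A v).filter fun a => ‖a‖ = q ^ (c * deg v)).card

/-- A sequence of characters `χ m` whose conductor tends to infinity at one place, with exponent
`f m` (times the degree of the place): the L-functions `L(s, τ_i × χ m)` are polynomials in `q^{-s}` of
degree `dim τ_i * f m + O(1)`, and all but `O(1)` of their zeros are on the critical line. -/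
structure RamifiedSequence {q : ℝ} {P : Type} {deg : P → ℕ} {G : CuspidalGL q P deg} {n : ℕ}
    (π : Parameters G n) where
  χ : ℕ → G.Rep
  f : ℕ → ℕ
  C : ℕ
  dim_one : ∀ m, G.dim (χ m) = 1
  tendsto : Tendsto f atTop atTop
  den_one : ∀ m i, G.den (π.τ i) (χ m) = 1
  natDegree_le : ∀ m i, (G.num (π.τ i) (χ m)).natDegree ≤ G.dim (π.τ i) * f m + C
  le_zerosOn : ∀ m i, G.dim (π.τ i) * f m ≤ zerosOn q (G.num (π.τ i) (χ m)) 0 + C

/-! ### Euler products -/

variable {P : Type}

theorem sum_bind {ι α β : Type} (s : Finset ι) (f : ι → Multiset α) (g : α → Multiset β) :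
    (∑ i ∈ s, f i).bind g = ∑ i ∈ s, (f i).bind g := by
  classical
  induction s using Finset.induction_on with
  | empty => simp
  | insert a s ha ih => rw [Finset.sum_insert ha, Finset.sum_insert ha, Multiset.add_bind, ih]

theorem sum_map {ι α β : Type} (s : Finset ι) (f : ι → Multiset α) (g : α → β) :
    (∑ i ∈ s, f i).map g = ∑ i ∈ s, (f i).map g :=
  map_sum (Multiset.mapAddMonoidHom g) _ _

theorem pair_comm (A B : P → Multiset ℂ) : pair A B = pair B A := by
  funext v
  unfold pair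
  rw [Multiset.bind_map_comm]
  simp only [mul_comm]

/-- Decomposition of the first argument. -/
theorem pair_sum (deg : P → ℕ) {k : ℕ} (A B' : P → Multiset ℂ) (B : Fin k → P → Multiset ℂ)
    (s : Fin k → ℂ) (v : P) (h : A v = ∑ i, (B i v).map fun b => s i ^ deg v * b) :
    pair A B' v = ∑ i, (pair (B i) B' v).map fun b => s i ^ deg v * b := by
  unfold pair
  rw [h, sum_bind]
  refine Finset.sum_congr rfl fun i _ => ?_
  rw [Multiset.bind_map, Multiset.map_bind]
  refine Multiset.bind_congr fun b _ => ?_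
  rw [Multiset.map_map]
  refine Multiset.map_congr rfl fun b' _ => ?_
  simp only [Function.comp]
  ring

theorem factor_sum (deg : P → ℕ) {k : ℕ} (A : P → Multiset ℂ) (B : Fin k → P → Multiset ℂ)
    (s : Fin k → ℂ) (v : P) (h : A v = ∑ i, (B i v).map fun b => s i ^ deg v * b) (u : ℂ) :
    factor deg A u v = ∏ i, factor deg (B i) (s i * u) v := by
  unfold factor
  rw [h, sum_map, Multiset.prod_sum]
  refine Finset.prod_congr rfl fun i _ => ?_
  rw [Multiset.map_map]
  congr 1
  refine Multiset.map_congr rfl fun b _ => ?_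
  simp only [Function.comp]
  rw [mul_pow]
  congr 2
  ring

/-- The L-function of a sum is the product of the L-functions of the terms. -/
theorem isL_sum (deg : P → ℕ) {k : ℕ} (A : P → Multiset ℂ) (B : Fin k → P → Multiset ℂ)
    (s : Fin k → ℂ) (h : ∀ v, A v = ∑ i, (B i v).map fun b => s i ^ deg v * b)
    (num den : Fin k → ℂ[X]) (hi : ∀ i, IsL deg (B i) (num i) (den i)) :
    IsL deg A (∏ i, (num i).comp (C (s i) * X)) (∏ i, (den i).comp (C (s i) * X)) := by
  refine ⟨?_, ?_⟩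
  · rw [Polynomial.eval_prod]
    refine Finset.prod_ne_zero_iff.2 fun i _ => ?_
    simpa [Polynomial.eval_comp] using (hi i).1
  · have hev : ∀ᶠ u in 𝓝 (0 : ℂ), ∀ i, HasProd (factor deg (B i) (s i * u))
        ((num i).eval (s i * u) / (den i).eval (s i * u)) := by
      refine eventually_all.2 fun i => ?_
      obtain ⟨-, ρ', hρ', hp'⟩ := hi i
      have hc : Tendsto (fun u : ℂ => s i * u) (𝓝 0) (𝓝 0) := by
        have : Continuous fun u : ℂ => s i * u := by fun_prop
        simpa using this.tendsto 0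
      have e2 : ∀ᶠ u in 𝓝 (0 : ℂ), ‖s i * u‖ < ρ' := by
        refine hc.eventually (p := fun x : ℂ => ‖x‖ < ρ') ?_
        filter_upwards [Metric.ball_mem_nhds (0 : ℂ) hρ'] with u hu
        simpa using hu
      filter_upwards [e2] with u h2
      exact hp' _ h2
    obtain ⟨ρ, hρ, hball⟩ := Metric.eventually_nhds_iff.1 hev
    refine ⟨ρ, hρ, fun u hu => ?_⟩
    have h3 := hball (y := u) (by simpa using hu)
    have := hasProd_prod (s := Finset.univ) fun i (_ : i ∈ Finset.univ) => h3 i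
    rw [Finset.prod_div_distrib] at this
    have e3 : (∏ i, (num i).comp (C (s i) * X)).eval u = ∏ i, (num i).eval (s i * u) := by
      simp [Polynomial.eval_prod, Polynomial.eval_comp]
    have e4 : (∏ i, (den i).comp (C (s i) * X)).eval u = ∏ i, (den i).eval (s i * u) := by
      simp [Polynomial.eval_prod, Polynomial.eval_comp]
    rw [e3, e4]
    convert this using 1
    funext v
    exact factor_sum deg A B s v (h v) u

/-- Two fractions with the same Euler product are equal. -/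
theorem cross {deg : P → ℕ} {A : P → Multiset ℂ} {N D N' D' : ℂ[X]} (h : IsL deg A N D)
    (h' : IsL deg A N' D') (u : ℂ) : N.eval u * D'.eval u = D.eval u * N'.eval u := by
  suffices hh : N * D' = D * N' by rw [← Polynomial.eval_mul, hh, Polynomial.eval_mul]
  refine Polynomial.eq_of_infinite_eval_eq _ _ ?_
  refine infinite_of_mem_nhds (0 : ℂ) ?_
  obtain ⟨hD0, ρ, hρ, hp⟩ := h
  obtain ⟨hD0', ρ', hρ', hp'⟩ := h'
  have e1 : ∀ᶠ u in 𝓝 (0 : ℂ), D.eval u ≠ 0 := D.continuous.continuousAt.eventually_ne hD0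
  have e2 : ∀ᶠ u in 𝓝 (0 : ℂ), D'.eval u ≠ 0 := D'.continuous.continuousAt.eventually_ne hD0'
  filter_upwards [e1, e2, Metric.ball_mem_nhds (0 : ℂ) hρ, Metric.ball_mem_nhds (0 : ℂ) hρ'] with
    u h1 h2 h3 h4
  have h5 := (hp u (by simpa using h3)).unique (hp' u (by simpa using h4))
  rw [div_eq_div_iff h1 h2] at h5
  change (N * D').eval u = (D * N').eval u
  rw [Polynomial.eval_mul, Polynomial.eval_mul, h5]
  ring

/-! ### The exponents of the constituents -/

theorem norm_mul_rpow {q : ℝ} (hq : 1 < q) (x : ℝ) (u : ℂ) :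
    ‖((q ^ x : ℝ) : ℂ) * u‖ = q ^ x * ‖u‖ := by
  have h0 : (0 : ℝ) < q := by linarith
  rw [norm_mul, Complex.norm_real, Real.norm_of_nonneg (Real.rpow_nonneg h0.le _)]

theorem conj_inv_eq {b : ℂ} (hb : ‖b‖ = 1) : ((starRingEnd ℂ) b)⁻¹ = b := by
  have h3 : b * (starRingEnd ℂ) b = 1 := by
    rw [Complex.mul_conj, Complex.normSq_eq_norm_sq, hb]
    simp
  exact inv_eq_of_mul_eq_one_left h3

section

variable {q : ℝ} {deg : P → ℕ} (G : CuspidalGL q P deg) {k : ℕ} (A : P → Multiset ℂ)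
  (τ : Fin k → G.Rep) (c : Fin k → ℝ)

/-- A zero of the twist by a highly ramified character. -/
theorem zero_of_twist (hq : 1 < q)
    (dec : ∀ v, A v = ∑ i, (G.satake (τ i) v).map fun b => ((q ^ c i : ℝ) : ℂ) ^ deg v * b)
    (χ : G.Rep) (hχ : ∀ i, G.den (τ i) χ = 1 ∧
      ∃ u : ℂ, ‖u‖ = q ^ (-(1 / 2) : ℝ) ∧ (G.num (τ i) χ).eval u = 0)
    (N D : ℂ[X]) (hL : IsL deg (pair A (G.satake χ)) N D) (i : Fin k) :
    ∃ u : ℂ, ‖u‖ = q ^ (-(1 / 2 + c i)) ∧ N.eval u = 0 := by
  have h0 : (0 : ℝ) < q := by linarith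
  obtain ⟨z, hz, hz0⟩ := (hχ i).2
  have hid := cross hL (isL_sum deg _ _ _
    (fun v => pair_sum deg A (G.satake χ) (fun i => G.satake (τ i)) _ v (dec v))
    (fun i => G.num (τ i) χ) (fun i => G.den (τ i) χ) (fun i => G.isL _ _))
    (((q ^ (-c i) : ℝ) : ℂ) * z)
  refine ⟨((q ^ (-c i) : ℝ) : ℂ) * z, ?_, ?_⟩
  · rw [norm_mul_rpow hq, hz, ← Real.rpow_add h0]
    congr 1
    ring
  have hs : ((q ^ c i : ℝ) : ℂ) * (((q ^ (-c i) : ℝ) : ℂ) * z) = z := by
    rw [← mul_assoc, ← Complex.ofReal_mul, ← Real.rpow_add h0]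
    simp
  have hr : (∏ j, (G.num (τ j) χ).comp (C ((q ^ c j : ℝ) : ℂ) * X)).eval
      (((q ^ (-c i) : ℝ) : ℂ) * z) = 0 := by
    rw [Polynomial.eval_prod]
    refine Finset.prod_eq_zero (Finset.mem_univ i) ?_
    rw [Polynomial.eval_comp, Polynomial.eval_mul, Polynomial.eval_C, Polynomial.eval_X, hs, hz0]
  have hl : (∏ j, (G.den (τ j) χ).comp (C ((q ^ c j : ℝ) : ℂ) * X)).eval
      (((q ^ (-c i) : ℝ) : ℂ) * z) = 1 := by
    rw [Polynomial.eval_prod]
    refine Finset.prod_eq_one fun j _ => ?_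
    rw [(hχ j).1]
    simp
  rw [hr, hl, mul_zero, mul_one] at hid
  exact hid

/-- There are no zeros further to the right. -/
theorem no_zeros (hq : 1 < q)
    (dec : ∀ v, A v = ∑ i, (G.satake (τ i) v).map fun b => ((q ^ c i : ℝ) : ℂ) ^ deg v * b)
    (χ : G.Rep) (κ σ : ℝ) (hκ : ∀ i, c i ≤ κ) (hσ : 1 / 2 + κ ≤ σ) :
    NoZerosRight q deg (pair A (G.satake χ)) σ := by
  have h0 : (0 : ℝ) < q := by linarith
  refine ⟨_, _, isL_sum deg _ _ _
    (fun v => pair_sum deg A (G.satake χ) (fun i => G.satake (τ i)) _ v (dec v))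
    (fun i => G.num (τ i) χ) (fun i => G.den (τ i) χ) (fun i => G.isL _ _), fun u hu => ?_⟩
  rw [Polynomial.eval_prod]
  refine Finset.prod_ne_zero_iff.2 fun i _ h => ?_
  rw [Polynomial.eval_comp, Polynomial.eval_mul, Polynomial.eval_C, Polynomial.eval_X] at h
  have hw : ‖((q ^ c i : ℝ) : ℂ) * u‖ < q ^ (-(1 / 2) : ℝ) := by
    rw [norm_mul_rpow hq]
    calc q ^ c i * ‖u‖ < q ^ c i * q ^ (-σ) :=
          mul_lt_mul_of_pos_left hu (Real.rpow_pos_of_pos h0 _)
      _ = q ^ (c i - σ) := by rw [← Real.rpow_add h0]; rfl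
      _ ≤ q ^ (-(1 / 2) : ℝ) := Real.rpow_le_rpow_of_exponent_le hq.le (by linarith [hκ i])
  have h1 : q ^ (-(1 / 2) : ℝ) < 1 := Real.rpow_lt_one_of_one_lt_of_neg hq (by norm_num)
  exact hw.ne (G.zeros _ _ _ (hw.trans h1) h)

/-- The pole of the twist by the dual of a constituent. -/
theorem pole_lemma (hq : 1 < q)
    (dec : ∀ v, A v = ∑ i, (G.satake (τ i) v).map fun b => ((q ^ c i : ℝ) : ℂ) ^ deg v * b)
    (i : Fin k) (hi : 0 < c i)
    (hol : HolomorphicRight q deg (pair A (G.satake (G.dual (τ i)))) 1) :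
    ∃ j, c i + 1 / 2 ≤ c j := by
  have h0 : (0 : ℝ) < q := by linarith
  obtain ⟨N, D, hL, hD⟩ := hol
  have hid := cross hL (isL_sum deg _ _ _
    (fun v => pair_sum deg A (G.satake (G.dual (τ i))) (fun i => G.satake (τ i)) _ v (dec v))
    (fun j => G.num (τ j) (G.dual (τ i))) (fun j => G.den (τ j) (G.dual (τ i)))
    (fun j => G.isL _ _)) ((q ^ (-1 - c i) : ℝ) : ℂ)
  have hl : (∏ j, (G.den (τ j) (G.dual (τ i))).comp (C ((q ^ c j : ℝ) : ℂ) * X)).eval
      ((q ^ (-1 - c i) : ℝ) : ℂ) = 0 := by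
    rw [Polynomial.eval_prod]
    refine Finset.prod_eq_zero (Finset.mem_univ i) ?_
    have : ((q ^ c i : ℝ) : ℂ) * ((q ^ (-1 - c i) : ℝ) : ℂ) = ((q ^ (-1 : ℝ) : ℝ) : ℂ) := by
      rw [← Complex.ofReal_mul, ← Real.rpow_add h0]
      congr 2
      ring
    rw [Polynomial.eval_comp, Polynomial.eval_mul, Polynomial.eval_C, Polynomial.eval_X, this,
      G.pole_dual]
  rw [hl, mul_zero] at hid
  have hD0 : D.eval ((q ^ (-1 - c i) : ℝ) : ℂ) ≠ 0 := by
    refine hD _ ?_
    rw [Complex.norm_real, Real.norm_of_nonneg (Real.rpow_nonneg h0.le _)]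
    exact Real.rpow_lt_rpow_of_exponent_lt hq (by linarith)
  have hp := (mul_eq_zero.1 hid.symm).resolve_left hD0
  rw [Polynomial.eval_prod] at hp
  obtain ⟨j, -, hj⟩ := Finset.prod_eq_zero_iff.1 hp
  rw [Polynomial.eval_comp, Polynomial.eval_mul, Polynomial.eval_C, Polynomial.eval_X] at hj
  refine ⟨j, ?_⟩
  have hn : ‖((q ^ c j : ℝ) : ℂ) * ((q ^ (-1 - c i) : ℝ) : ℂ)‖ = q ^ (c j - c i - 1) := by
    rw [norm_mul_rpow hq, Complex.norm_real, Real.norm_of_nonneg (Real.rpow_nonneg h0.le _),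
      ← Real.rpow_add h0]
    congr 1
    ring
  by_cases hlt : ‖((q ^ c j : ℝ) : ℂ) * ((q ^ (-1 - c i) : ℝ) : ℂ)‖ < 1
  · have h1 := G.zeros _ _ _ hlt hj
    rw [hn] at h1
    have h2 := (Real.rpow_right_inj h0 hq.ne').1 h1
    linarith
  · rw [hn] at hlt
    push Not at hlt
    by_contra hcon
    push Not at hcon
    have : q ^ (c j - c i - 1) < q ^ (0 : ℝ) :=
      Real.rpow_lt_rpow_of_exponent_lt hq (by linarith)
    rw [Real.rpow_zero] at this
    linarith

/-- The decomposition with the opposite exponents. -/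
theorem opposite (hq : 1 < q)
    (herm : ∀ v, (A v).map (fun a => ((starRingEnd ℂ) a)⁻¹) = A v)
    (dec : ∀ v, A v = ∑ i, (G.satake (τ i) v).map fun b => ((q ^ c i : ℝ) : ℂ) ^ deg v * b) (v : P) :
    A v = ∑ i, (G.satake (τ i) v).map fun b => ((q ^ (-c i) : ℝ) : ℂ) ^ deg v * b := by
  have h0 : (0 : ℝ) < q := by linarith
  conv_lhs => rw [← herm v, dec v]
  rw [sum_map]
  refine Finset.sum_congr rfl fun i _ => ?_
  rw [Multiset.map_map]
  refine Multiset.map_congr rfl fun b hb => ?_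
  simp only [Function.comp]
  rw [map_mul, map_pow, Complex.conj_ofReal, mul_inv, conj_inv_eq (G.norm_satake (τ i) v b hb),
    ← inv_pow, ← Complex.ofReal_inv, Real.rpow_neg h0.le]

/-- The parameters of the dual. -/
theorem dual_dec (hq : 1 < q)
    (herm : ∀ v, (A v).map (fun a => ((starRingEnd ℂ) a)⁻¹) = A v)
    (dec : ∀ v, A v = ∑ i, (G.satake (τ i) v).map fun b => ((q ^ c i : ℝ) : ℂ) ^ deg v * b) (v : P) :
    dualParams A v =
      ∑ i, (G.satake (G.dual (τ i)) v).map fun b => ((q ^ c i : ℝ) : ℂ) ^ deg v * b := by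
  have h0 : (0 : ℝ) < q := by linarith
  unfold dualParams
  rw [opposite G A τ c hq herm dec v, sum_map]
  refine Finset.sum_congr rfl fun i _ => ?_
  rw [Multiset.map_map, G.satake_dual, dualParams, Multiset.map_map]
  refine Multiset.map_congr rfl fun b hb => ?_
  simp only [Function.comp]
  rw [mul_inv, ← inv_pow, ← Complex.ofReal_inv, Real.rpow_neg h0.le, inv_inv]

/-- The fraction that represents the L-function of `r ⊗ r^∨`. -/
theorem isL_square (hq : 1 < q)
    (herm : ∀ v, (A v).map (fun a => ((starRingEnd ℂ) a)⁻¹) = A v)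
    (dec : ∀ v, A v = ∑ i, (G.satake (τ i) v).map fun b => ((q ^ c i : ℝ) : ℂ) ^ deg v * b) :
    ∃ N D, IsL deg (pair A (dualParams A)) N D ∧
      (∀ u, N.eval u = ∏ i, ∏ j, (G.num (τ i) (G.dual (τ j))).eval
        (((q ^ (c i + c j) : ℝ) : ℂ) * u)) ∧
      (∀ u, D.eval u = ∏ i, ∏ j, (G.den (τ i) (G.dual (τ j))).eval
        (((q ^ (c i + c j) : ℝ) : ℂ) * u)) := by
  have h0 : (0 : ℝ) < q := by linarith
  have h1 : ∀ i, IsL deg (pair (G.satake (τ i)) (dualParams A))
      (∏ j, (G.num (τ i) (G.dual (τ j))).comp (C ((q ^ c j : ℝ) : ℂ) * X))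
      (∏ j, (G.den (τ i) (G.dual (τ j))).comp (C ((q ^ c j : ℝ) : ℂ) * X)) := by
    intro i
    rw [pair_comm]
    refine isL_sum deg _ _ _
      (fun v => pair_sum deg (dualParams A) (G.satake (τ i)) (fun j => G.satake (G.dual (τ j)))
        _ v (dual_dec G A τ c hq herm dec v)) _ _ fun j => ?_
    rw [pair_comm]
    exact G.isL _ _
  refine ⟨_, _, isL_sum deg _ _ _
    (fun v => pair_sum deg A (dualParams A) (fun i => G.satake (τ i)) _ v (dec v)) _ _ h1, ?_, ?_⟩
  all_goals
    intro u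
    rw [Polynomial.eval_prod]
    refine Finset.prod_congr rfl fun i _ => ?_
    rw [Polynomial.eval_comp, Polynomial.eval_prod]
    refine Finset.prod_congr rfl fun j _ => ?_
    rw [Polynomial.eval_comp, Polynomial.eval_mul, Polynomial.eval_C, Polynomial.eval_X,
      Polynomial.eval_mul, Polynomial.eval_C, Polynomial.eval_X, ← mul_assoc,
      ← Complex.ofReal_mul, ← Real.rpow_add h0, add_comm (c j)]

/-- The abscissa of holomorphy of the L-function of `r ⊗ r^∨`. -/
theorem square_iff (hq : 1 < q)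
    (herm : ∀ v, (A v).map (fun a => ((starRingEnd ℂ) a)⁻¹) = A v)
    (dec : ∀ v, A v = ∑ i, (G.satake (τ i) v).map fun b => ((q ^ c i : ℝ) : ℂ) ^ deg v * b)
    (m : Fin k) (hm : ∀ i, c i ≤ c m) (σ : ℝ) :
    HolomorphicRight q deg (pair A (dualParams A)) σ ↔ 1 + 2 * c m ≤ σ := by
  have h0 : (0 : ℝ) < q := by linarith
  have h1 : q ^ (-1 : ℝ) < 1 := Real.rpow_lt_one_of_one_lt_of_neg hq (by norm_num)
  obtain ⟨N, D, hL, hN, hD⟩ := isL_square G A τ c hq herm dec
  constructor
  · rintro ⟨N', D', hL', hD'⟩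
    by_contra hcon
    push Not at hcon
    have hid := cross hL' hL ((q ^ (-1 - 2 * c m) : ℝ) : ℂ)
    have hD0 : D.eval ((q ^ (-1 - 2 * c m) : ℝ) : ℂ) = 0 := by
      rw [hD]
      refine Finset.prod_eq_zero (Finset.mem_univ m) (Finset.prod_eq_zero (Finset.mem_univ m) ?_)
      have : ((q ^ (c m + c m) : ℝ) : ℂ) * ((q ^ (-1 - 2 * c m) : ℝ) : ℂ) =
          ((q ^ (-1 : ℝ) : ℝ) : ℂ) := by
        rw [← Complex.ofReal_mul, ← Real.rpow_add h0]
        congr 2
        ring
      rw [this, G.pole_dual]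
    rw [hD0, mul_zero] at hid
    rcases mul_eq_zero.1 hid.symm with h | h
    · refine hD' _ ?_ h
      rw [Complex.norm_real, Real.norm_of_nonneg (Real.rpow_nonneg h0.le _)]
      exact Real.rpow_lt_rpow_of_exponent_lt hq (by linarith)
    · rw [hN] at h
      obtain ⟨i, -, hi⟩ := Finset.prod_eq_zero_iff.1 h
      obtain ⟨j, -, hj⟩ := Finset.prod_eq_zero_iff.1 hi
      have hn : ‖((q ^ (c i + c j) : ℝ) : ℂ) * ((q ^ (-1 - 2 * c m) : ℝ) : ℂ)‖ ≤
          q ^ (-1 : ℝ) := by
        rw [norm_mul_rpow hq, Complex.norm_real, Real.norm_of_nonneg (Real.rpow_nonneg h0.le _),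
          ← Real.rpow_add h0]
        exact Real.rpow_le_rpow_of_exponent_le hq.le (by linarith [hm i, hm j])
      have h2 := G.zeros _ _ _ (lt_of_le_of_lt hn h1) hj
      rw [h2] at hn
      have h3 : q ^ (-1 : ℝ) < q ^ (-(1 / 2) : ℝ) :=
        Real.rpow_lt_rpow_of_exponent_lt hq (by norm_num)
      linarith
  · intro hσ
    refine ⟨N, D, hL, fun u hu => ?_⟩
    rw [hD]
    refine Finset.prod_ne_zero_iff.2 fun i _ => Finset.prod_ne_zero_iff.2 fun j _ h => ?_
    have hw : ‖((q ^ (c i + c j) : ℝ) : ℂ) * u‖ < q ^ (-1 : ℝ) := by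
      rw [norm_mul_rpow hq]
      calc q ^ (c i + c j) * ‖u‖ < q ^ (c i + c j) * q ^ (-σ) :=
            mul_lt_mul_of_pos_left hu (Real.rpow_pos_of_pos h0 _)
        _ = q ^ (c i + c j - σ) := by rw [← Real.rpow_add h0]; rfl
        _ ≤ q ^ (-1 : ℝ) :=
          Real.rpow_le_rpow_of_exponent_le hq.le (by linarith [hm i, hm j])
    exact hw.ne (G.poles _ _ _ (hw.trans h1) h)

/-- A constituent with an exponent different from zero has dimension at most `n / 2`. -/
theorem two_mul_dim_le (hq : 1 < q) [Nonempty P] (hdeg : ∀ v, 0 < deg v) {n : ℕ}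
    (card_A : ∀ v, (A v).card = n)
    (herm : ∀ v, (A v).map (fun a => ((starRingEnd ℂ) a)⁻¹) = A v)
    (dec : ∀ v, A v = ∑ i, (G.satake (τ i) v).map fun b => ((q ^ c i : ℝ) : ℂ) ^ deg v * b)
    (i : Fin k) (hi : c i ≠ 0) : 2 * G.dim (τ i) ≤ n := by
  classical
  have h0 : (0 : ℝ) < q := by linarith
  obtain ⟨v⟩ := ‹Nonempty P›
  have sub : ∀ c' : Fin k → ℝ,
      (A v = ∑ i, (G.satake (τ i) v).map fun b => ((q ^ c' i : ℝ) : ℂ) ^ deg v * b) →
      ((G.satake (τ i) v).map fun b => ((q ^ c' i : ℝ) : ℂ) ^ deg v * b) ≤ A v := by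
    intro c' hc'
    rw [hc', ← Finset.add_sum_erase _ _ (Finset.mem_univ i)]
    exact Multiset.le_add_right _ _
  have nrm : ∀ x : ℝ, ∀ a ∈ ((G.satake (τ i) v).map fun b => ((q ^ x : ℝ) : ℂ) ^ deg v * b),
      ‖a‖ = q ^ (x * deg v) := by
    intro x a ha
    obtain ⟨b, hb, rfl⟩ := Multiset.mem_map.1 ha
    rw [norm_mul, norm_pow, Complex.norm_real, Real.norm_of_nonneg (Real.rpow_nonneg h0.le _),
      G.norm_satake _ _ b hb, mul_one, Real.rpow_mul h0.le, Real.rpow_natCast]
  have hd : (0 : ℝ) < deg v := by exact_mod_cast hdeg v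
  have hne : q ^ (c i * deg v) ≠ q ^ (-c i * deg v) := by
    intro h
    have := (Real.rpow_right_inj h0 hq.ne').1 h
    have h2 : c i * deg v = 0 := by linarith
    rcases mul_eq_zero.1 h2 with h3 | h3
    · exact hi h3
    · exact hd.ne' h3
  set p : ℂ → Prop := fun a => ‖a‖ = q ^ (c i * deg v) with hp
  have hS : ((G.satake (τ i) v).map fun b => ((q ^ c i : ℝ) : ℂ) ^ deg v * b) ≤
      (A v).filter p :=
    Multiset.le_filter.2 ⟨sub c (dec v), fun a ha => nrm _ a ha⟩
  have hT : ((G.satake (τ i) v).map fun b => ((q ^ (-c i) : ℝ) : ℂ) ^ deg v * b) ≤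
      (A v).filter (fun a => ¬ p a) :=
    Multiset.le_filter.2 ⟨sub (fun i => -c i) (opposite G A τ c hq herm dec v), fun a ha h => by
      rw [hp] at h
      rw [nrm _ a ha] at h
      exact hne h.symm⟩
  have hcard := Multiset.card_le_card (add_le_add hS hT)
  rw [Multiset.filter_add_not, card_A, Multiset.card_add, Multiset.card_map, Multiset.card_map,
    G.card_satake] at hcard
  omega

end

/-! ### The number of zeros -/

theorem count_comp (p : ℂ[X]) {a : ℂ} (ha : a ≠ 0) (r : ℝ) [DecidablePred fun u : ℂ => ‖u‖ = r]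
    [DecidablePred fun u : ℂ => ‖u‖ = ‖a‖ * r] :
    ((p.comp (C a * X)).roots.filter fun u => ‖u‖ = r).card =
      (p.roots.filter fun u => ‖u‖ = ‖a‖ * r).card := by
  have h := map_roots_comp_C_mul_X_add_C p a 0 (isUnit_iff_ne_zero.2 ha)
  simp only [map_zero, add_zero] at h
  rw [← h, Multiset.filter_map, Multiset.card_map]
  congr 1
  refine Multiset.filter_congr fun u _ => ?_
  change ‖u‖ = r ↔ ‖a * u‖ = ‖a‖ * r
  rw [norm_mul]
  exact (mul_right_inj' (norm_ne_zero_iff.2 ha)).symm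

theorem zerosOn_prod {q : ℝ} (hq : 1 < q) {k : ℕ} (p : Fin k → ℂ[X]) (hp : ∀ j, p j ≠ 0)
    (c : Fin k → ℝ) (x : ℝ) :
    zerosOn q (∏ j, (p j).comp (C ((q ^ c j : ℝ) : ℂ) * X)) x =
      ∑ j, zerosOn q (p j) (x - c j) := by
  classical
  have h0 : (0 : ℝ) < q := by linarith
  have hs : ∀ j, ((q ^ c j : ℝ) : ℂ) ≠ 0 := fun j =>
    Complex.ofReal_ne_zero.2 (Real.rpow_pos_of_pos h0 _).ne'
  have hne : ∀ j, (p j).comp (C ((q ^ c j : ℝ) : ℂ) * X) ≠ 0 := by
    intro j h
    rw [Polynomial.comp_eq_zero_iff] at h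
    rcases h with h | h
    · exact hp j h
    · have h2 := h.2
      have h3 := congrArg (fun r : ℂ[X] => r.coeff 1) h2
      simp [Polynomial.coeff_C] at h3
      exact hs j (by exact_mod_cast h3)
  unfold zerosOn
  rw [Polynomial.roots_prod _ _ (Finset.prod_ne_zero_iff.2 fun j _ => hne j),
    Multiset.filter_bind]
  rw [Multiset.card_bind]
  change ((Finset.univ.val.map _).sum : ℕ) = _
  rw [← Finset.sum_eq_multiset_sum]
  refine Finset.sum_congr rfl fun j _ => ?_
  simp only [Function.comp]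
  rw [count_comp (p j) (hs j)]
  congr 1
  refine Multiset.filter_congr fun u _ => ?_
  rw [Complex.norm_real, Real.norm_of_nonneg (Real.rpow_nonneg h0.le _), ← Real.rpow_add h0]
  have : c j + -(1 / 2 + x) = -(1 / 2 + (x - c j)) := by ring
  rw [this]

theorem zerosOn_le {q : ℝ} (N : ℂ[X]) (x : ℝ) : zerosOn q N x ≤ N.natDegree := by
  classical
  exact (Multiset.card_le_card (Multiset.filter_le _ _)).trans (Polynomial.card_roots' N)

/-- Zeros on different lines. -/
theorem zerosOn_add_le {q : ℝ} (hq : 1 < q) (N : ℂ[X]) {x y : ℝ} (hxy : x ≠ y) :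
    zerosOn q N x + zerosOn q N y ≤ N.natDegree := by
  classical
  have h0 : (0 : ℝ) < q := by linarith
  refine le_trans ?_ (Polynomial.card_roots' N)
  unfold zerosOn
  rw [← Multiset.card_add]
  refine Multiset.card_le_card ?_
  have h1 : (N.roots.filter fun u => ‖u‖ = q ^ (-(1 / 2 + y))) ≤
      N.roots.filter fun u => ¬ ‖u‖ = q ^ (-(1 / 2 + x)) := by
    refine Multiset.monotone_filter_right _ fun u hu h => hxy ?_
    rw [hu] at h
    have := (Real.rpow_right_inj h0 hq.ne').1 h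
    linarith
  refine (add_le_add le_rfl h1).trans ?_
  rw [Multiset.filter_add_not]

/-- Zeros on three different lines. -/
theorem zerosOn_add_add_le {q : ℝ} (hq : 1 < q) (N : ℂ[X]) {x y z : ℝ} (hxy : x ≠ y) (hxz : x ≠ z)
    (hyz : y ≠ z) : zerosOn q N x + zerosOn q N y + zerosOn q N z ≤ N.natDegree := by
  classical
  have h0 : (0 : ℝ) < q := by linarith
  refine le_trans ?_ (Polynomial.card_roots' N)
  unfold zerosOn
  rw [← Multiset.card_add, ← Multiset.card_add]
  refine Multiset.card_le_card ?_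
  have key : ∀ x y : ℝ, x ≠ y → ∀ u : ℂ, ‖u‖ = q ^ (-(1 / 2 + y)) →
      ¬ ‖u‖ = q ^ (-(1 / 2 + x)) := by
    intro x y hxy u hu h
    rw [hu] at h
    have := (Real.rpow_right_inj h0 hq.ne').1 h
    exact hxy (by linarith)
  set M := N.roots.filter fun u => ¬ ‖u‖ = q ^ (-(1 / 2 + x)) with hM
  have h1 : (N.roots.filter fun u => ‖u‖ = q ^ (-(1 / 2 + y))) ≤
      M.filter fun u => ‖u‖ = q ^ (-(1 / 2 + y)) := by
    rw [hM, Multiset.filter_filter]
    refine Multiset.monotone_filter_right _ fun u hu => ⟨hu, key _ _ hxy u hu⟩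
  have h2 : (N.roots.filter fun u => ‖u‖ = q ^ (-(1 / 2 + z))) ≤
      M.filter fun u => ¬ ‖u‖ = q ^ (-(1 / 2 + y)) := by
    rw [hM, Multiset.filter_filter]
    refine Multiset.monotone_filter_right _ fun u hu => ⟨key _ _ hyz u hu, key _ _ hxz u hu⟩
  rw [add_assoc]
  refine (add_le_add le_rfl (add_le_add h1 h2)).trans ?_
  rw [Multiset.filter_add_not, hM, Multiset.filter_add_not]

/-- The number of the parameters with a given absolute value is the sum of the dimensions of the
constituents with this exponent. -/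
theorem paramsOn_eq {q : ℝ} (hq : 1 < q) {deg : P → ℕ} (hdeg : ∀ v, 0 < deg v)
    (G : CuspidalGL q P deg) {k : ℕ} (A : P → Multiset ℂ) (τ : Fin k → G.Rep) (c : Fin k → ℝ)
    (dec : ∀ v, A v = ∑ i, (G.satake (τ i) v).map fun b => ((q ^ c i : ℝ) : ℂ) ^ deg v * b)
    (v : P) (x : ℝ) : paramsOn q deg A v x = ∑ i, if c i = x then G.dim (τ i) else 0 := by
  classical
  have h0 : (0 : ℝ) < q := by linarith
  have hd : (0 : ℝ) < deg v := by exact_mod_cast hdeg v
  unfold paramsOn
  rw [dec v]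
  have h1 : (∑ i, (G.satake (τ i) v).map fun b => ((q ^ c i : ℝ) : ℂ) ^ deg v * b).filter
      (fun a => ‖a‖ = q ^ (x * deg v)) =
      ∑ i, ((G.satake (τ i) v).map fun b => ((q ^ c i : ℝ) : ℂ) ^ deg v * b).filter
        (fun a => ‖a‖ = q ^ (x * deg v)) := by
    induction (Finset.univ : Finset (Fin k)) using Finset.induction_on with
    | empty => simp
    | insert a s ha ih =>
      rw [Finset.sum_insert ha, Finset.sum_insert ha, Multiset.filter_add, ih]
  rw [h1, Multiset.card_sum]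
  refine Finset.sum_congr rfl fun i _ => ?_
  have nrm : ∀ a ∈ ((G.satake (τ i) v).map fun b => ((q ^ c i : ℝ) : ℂ) ^ deg v * b),
      ‖a‖ = q ^ (c i * deg v) := by
    intro a ha
    obtain ⟨b, hb, rfl⟩ := Multiset.mem_map.1 ha
    rw [norm_mul, norm_pow, Complex.norm_real, Real.norm_of_nonneg (Real.rpow_nonneg h0.le _),
      G.norm_satake _ _ b hb, mul_one, Real.rpow_mul h0.le, Real.rpow_natCast]
  split_ifs with h
  · rw [Multiset.filter_eq_self.2 fun a ha => by rw [nrm a ha, h], Multiset.card_map,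
      G.card_satake]
  · rw [Multiset.filter_eq_nil.2 fun a ha => ?_, Multiset.card_zero]
    rw [nrm a ha]
    intro h2
    have h3 := (Real.rpow_right_inj h0 hq.ne').1 h2
    exact h (mul_right_cancel₀ hd.ne' h3)

/-- The zeros of the twists by a sequence of characters. -/
theorem zeros_count {q : ℝ} (hq : 1 < q) {deg : P → ℕ} (hdeg : ∀ v, 0 < deg v)
    (G : CuspidalGL q P deg) {n : ℕ} (π : Parameters G n) (F : RamifiedSequence π) (m : ℕ)
    (N : ℂ[X]) (hN : IsL deg (pair π.A (G.satake (F.χ m))) N 1) :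
    (∀ v x, |(zerosOn q N x : ℤ) - paramsOn q deg π.A v x * F.f m| ≤ 2 * F.C * π.k) ∧
      (∑ i, G.dim (π.τ i)) * F.f m ≤ N.natDegree + F.C * π.k ∧
      N.natDegree ≤ (∑ i, G.dim (π.τ i)) * F.f m + F.C * π.k := by
  classical
  have h0 : (0 : ℝ) < q := by linarith
  have hs : ∀ j, ((q ^ π.c j : ℝ) : ℂ) ≠ 0 := fun j =>
    Complex.ofReal_ne_zero.2 (Real.rpow_pos_of_pos h0 _).ne'
  have hne : ∀ i, G.num (π.τ i) (F.χ m) ≠ 0 := by
    intro i h
    have h1 := G.zeros (π.τ i) (F.χ m) 0 (by simp) (by rw [h]; simp)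
    rw [norm_zero] at h1
    exact (Real.rpow_pos_of_pos h0 _).ne h1
  have hL := isL_sum deg _ _ _
    (fun v => pair_sum deg π.A (G.satake (F.χ m)) (fun i => G.satake (π.τ i)) _ v (π.decomp v))
    (fun i => G.num (π.τ i) (F.χ m)) (fun i => G.den (π.τ i) (F.χ m)) (fun i => G.isL _ _)
  have hD : (∏ i, (G.den (π.τ i) (F.χ m)).comp (C ((q ^ π.c i : ℝ) : ℂ) * X)) = 1 := by
    refine Finset.prod_eq_one fun i _ => ?_
    rw [F.den_one]
    simp
  rw [hD] at hL
  have hNeq : N = ∏ i, (G.num (π.τ i) (F.χ m)).comp (C ((q ^ π.c i : ℝ) : ℂ) * X) := by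
    refine Polynomial.funext fun u => ?_
    have := cross hN hL u
    simpa using this
  have hz : ∀ x, zerosOn q N x = ∑ i, zerosOn q (G.num (π.τ i) (F.χ m)) (x - π.c i) := by
    intro x
    rw [hNeq]
    exact zerosOn_prod hq _ hne _ x
  have hdegN : N.natDegree = ∑ i, (G.num (π.τ i) (F.χ m)).natDegree := by
    rw [hNeq, Polynomial.natDegree_prod]
    · refine Finset.sum_congr rfl fun i _ => ?_
      rw [Polynomial.natDegree_comp, Polynomial.natDegree_C_mul_X _ (hs i), mul_one]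
    · intro i _ h
      have h2 := congrArg Polynomial.natDegree h
      rw [Polynomial.comp_eq_zero_iff] at h
      rcases h with h | h
      · exact hne i h
      · have h3 := congrArg (fun r : ℂ[X] => r.coeff 1) h.2
        simp [Polynomial.coeff_C] at h3
        exact hs i (by exact_mod_cast h3)
  refine ⟨fun v x => ?_, ?_, ?_⟩
  · rw [hz x, paramsOn_eq hq hdeg G π.A π.τ π.c π.decomp v x]
    push_cast
    rw [Finset.sum_mul, ← Finset.sum_sub_distrib]
    refine (Finset.abs_sum_le_sum_abs _ _).trans ?_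
    have hb : ∀ i ∈ (Finset.univ : Finset (Fin π.k)),
        |(zerosOn q (G.num (π.τ i) (F.χ m)) (x - π.c i) : ℤ) -
          (if π.c i = x then (G.dim (π.τ i) : ℤ) else 0) * F.f m| ≤ 2 * F.C := by
      intro i _
      have e1 := F.natDegree_le m i
      have e2 := F.le_zerosOn m i
      split_ifs with h
      · have e3 := zerosOn_le (q := q) (G.num (π.τ i) (F.χ m)) 0
        rw [h, sub_self, abs_le]
        constructor <;> zify at * <;> linarith
      · have e3 := zerosOn_add_le hq (G.num (π.τ i) (F.χ m)) (x := x - π.c i) (y := 0)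
          (fun h2 => h (by linarith))
        rw [zero_mul, sub_zero, abs_of_nonneg (by positivity)]
        zify at *
        linarith
    refine (Finset.sum_le_sum hb).trans ?_
    rw [Finset.sum_const, Finset.card_univ, Fintype.card_fin, nsmul_eq_mul]
    linarith
  · rw [hdegN, Finset.sum_mul]
    have hb : ∀ i ∈ (Finset.univ : Finset (Fin π.k)),
        G.dim (π.τ i) * F.f m ≤ (G.num (π.τ i) (F.χ m)).natDegree + F.C := fun i _ =>
      (F.le_zerosOn m i).trans (Nat.add_le_add_right (zerosOn_le _ _) _)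
    refine (Finset.sum_le_sum hb).trans ?_
    rw [Finset.sum_add_distrib, Finset.sum_const, Finset.card_univ, Fintype.card_fin, smul_eq_mul,
      mul_comm F.C]
  · rw [hdegN, Finset.sum_mul]
    refine (Finset.sum_le_sum fun i (_ : i ∈ Finset.univ) => F.natDegree_le m i).trans ?_
    rw [Finset.sum_add_distrib, Finset.sum_const, Finset.card_univ, Fintype.card_fin, smul_eq_mul,
      mul_comm F.C]

/-- The proportion of the zeros on the critical line decides. -/
theorem proportion {q : ℝ} (hq : 1 < q) {deg : P → ℕ} (hdeg : ∀ v, 0 < deg v)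
    (G : CuspidalGL q P deg) {n : ℕ} (hn : 0 < n) (π : Parameters G n) (F : RamifiedSequence π)
    (v : P) (κ : ℝ) (hκ : 0 ≤ κ) (hle : ∀ i, π.c i ≤ κ ∧ -π.c i ≤ κ)
    (hpos : 0 < paramsOn q deg π.A v κ) (hneg : 0 < paramsOn q deg π.A v (-κ)) :
    κ = 0 ↔ ∃ δ > 0, ∃ᶠ m in atTop, ∃ N, IsL deg (pair π.A (G.satake (F.χ m))) N 1 ∧
      (N.natDegree : ℝ) - zerosOn q N 0 ≤ (2 / n - δ) * N.natDegree := by
  classical
  have hnR : (0 : ℝ) < n := by exact_mod_cast hn
  have hsum : ∑ i, G.dim (π.τ i) = n := by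
    refine Eq.trans ?_ (π.card_A v)
    rw [π.decomp v, Multiset.card_sum]
    refine Finset.sum_congr rfl fun i _ => ?_
    rw [Multiset.card_map, G.card_satake]
  set K : ℝ := F.C * π.k with hK
  have hK0 : 0 ≤ K := by positivity
  have hF : Tendsto (fun m => (F.f m : ℝ)) atTop atTop :=
    tendsto_natCast_atTop_atTop.comp F.tendsto
  constructor
  · intro h0
    have hc : ∀ i, π.c i = 0 := fun i => by linarith [(hle i).1, (hle i).2]
    have hp0 : paramsOn q deg π.A v 0 = n := by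
      rw [paramsOn_eq hq hdeg G π.A π.τ π.c π.decomp v 0]
      refine Eq.trans ?_ hsum
      exact Finset.sum_congr rfl fun i _ => by rw [if_pos (hc i)]
    refine ⟨1 / n, by positivity, Eventually.frequently ?_⟩
    filter_upwards [hF.eventually_ge_atTop ((3 * K * n + K) / n)] with m hm
    have hL := isL_sum deg _ _ _
      (fun v => pair_sum deg π.A (G.satake (F.χ m)) (fun i => G.satake (π.τ i)) _ v (π.decomp v))
      (fun i => G.num (π.τ i) (F.χ m)) (fun i => G.den (π.τ i) (F.χ m)) (fun i => G.isL _ _)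
    have hD : (∏ i, (G.den (π.τ i) (F.χ m)).comp (C ((q ^ π.c i : ℝ) : ℂ) * X)) = 1 := by
      refine Finset.prod_eq_one fun i _ => ?_
      rw [F.den_one]
      simp
    rw [hD] at hL
    refine ⟨_, hL, ?_⟩
    obtain ⟨h1, h2, h3⟩ := zeros_count hq hdeg G π F m _ hL
    set N := (∏ i, (G.num (π.τ i) (F.χ m)).comp (C ((q ^ π.c i : ℝ) : ℂ) * X)) with hN
    have h1' := h1 v 0
    rw [hp0] at h1'
    rw [hsum] at h2 h3
    have h4 : (n : ℝ) * F.f m - 2 * K ≤ zerosOn q N 0 := by
      have := (abs_le.1 h1').1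
      have h5 : (-(2 * F.C * π.k : ℤ) : ℝ) ≤ ((zerosOn q N 0 : ℤ) - (n : ℤ) * F.f m : ℤ) := by
        exact_mod_cast this
      push_cast at h5
      rw [hK]
      linarith
    have h2' : (n : ℝ) * F.f m ≤ N.natDegree + K := by rw [hK]; exact_mod_cast h2
    have h3' : (N.natDegree : ℝ) ≤ n * F.f m + K := by rw [hK]; exact_mod_cast h3
    rw [div_le_iff₀ hnR] at hm
    have h6 : (2 / n - 1 / n : ℝ) * N.natDegree = N.natDegree / n := by ring
    rw [h6, le_div_iff₀ hnR]
    nlinarith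
  · rintro ⟨δ, hδ, hfr⟩
    by_contra hne
    have hκ0 : 0 < κ := lt_of_le_of_ne hκ (Ne.symm hne)
    have hev : ∀ᶠ m in atTop, ((2 * K / n + δ * K + 4 * K + 1) / (δ * n)) ≤ (F.f m : ℝ) :=
      hF.eventually_ge_atTop _
    obtain ⟨m, ⟨N, hL, hoff⟩, hm⟩ := (hfr.and_eventually hev).exists
    obtain ⟨h1, h2, h3⟩ := zeros_count hq hdeg G π F m N hL
    rw [hsum] at h2 h3
    have h3' : (N.natDegree : ℝ) ≤ n * F.f m + K := by rw [hK]; exact_mod_cast h3
    have h2' : (n : ℝ) * F.f m ≤ N.natDegree + K := by rw [hK]; exact_mod_cast h2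
    have low : ∀ x, 0 < paramsOn q deg π.A v x → (F.f m : ℝ) - 2 * K ≤ zerosOn q N x := by
      intro x hx
      have := (abs_le.1 (h1 v x)).1
      have h5 : (-(2 * F.C * π.k : ℤ) : ℝ) ≤
          ((zerosOn q N x : ℤ) - (paramsOn q deg π.A v x : ℤ) * F.f m : ℤ) := by
        exact_mod_cast this
      push_cast at h5
      have h6 : (1 : ℝ) ≤ paramsOn q deg π.A v x := by exact_mod_cast hx
      have h7 : (0 : ℝ) ≤ F.f m := by positivity
      rw [hK]
      nlinarith
    have h4 := low κ hpos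
    have h5 := low (-κ) hneg
    have h6 := zerosOn_add_add_le hq N (x := κ) (y := -κ) (z := 0) (by linarith) hκ0.ne'
      (by linarith)
    have h6' : (zerosOn q N κ : ℝ) + zerosOn q N (-κ) + zerosOn q N 0 ≤ N.natDegree := by
      exact_mod_cast h6
    have h8 : 2 * (F.f m : ℝ) - 4 * K ≤ (2 / n - δ) * N.natDegree := by linarith
    have h9 : (2 / n - δ) * (N.natDegree : ℝ) ≤
        2 / n * (n * F.f m + K) - δ * (n * F.f m - K) := by
      have e1 : 2 / n * (N.natDegree : ℝ) ≤ 2 / n * (n * F.f m + K) :=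
        mul_le_mul_of_nonneg_left h3' (by positivity)
      have e2 : δ * (n * F.f m - K) ≤ δ * N.natDegree :=
        mul_le_mul_of_nonneg_left (by linarith) hδ.le
      nlinarith
    have h10 : 2 / n * (n * F.f m + K) = 2 * F.f m + 2 * K / n := by
      field_simp
    rw [h10] at h9
    rw [div_le_iff₀ (by positivity)] at hm
    nlinarith

/-- The common part: the exponent. -/
theorem exponent {q : ℝ} (hq : 1 < q) [Nonempty P] (deg : P → ℕ) (hdeg : ∀ v, 0 < deg v)
    (G : CuspidalGL q P deg) {n : ℕ} (hn : 0 < n) (π : Parameters G n) :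
    ∃ m : Fin π.k, 0 ≤ π.c m ∧ (∀ i, π.c i ≤ π.c m ∧ -π.c i ≤ π.c m) ∧
      (∀ v, (∀ a ∈ π.A v, q ^ (-(π.c m * deg v)) ≤ ‖a‖ ∧ ‖a‖ ≤ q ^ (π.c m * deg v)) ∧
        ∃ a ∈ π.A v, ‖a‖ = q ^ (π.c m * deg v)) ∧
      ∀ v, 0 < paramsOn q deg π.A v (π.c m) ∧ 0 < paramsOn q deg π.A v (-π.c m) := by
  have h0 : (0 : ℝ) < q := by linarith
  have opp := opposite G π.A π.τ π.c hq π.hermitian π.decomp
  have nrm : ∀ (c : Fin π.k → ℝ) (v : P),
      π.A v = ∑ i, (G.satake (π.τ i) v).map (fun b => ((q ^ c i : ℝ) : ℂ) ^ deg v * b) →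
      ∀ a ∈ π.A v, ∃ i, ‖a‖ = q ^ (c i * deg v) := by
    intro c v hc a ha
    rw [hc, Multiset.mem_sum] at ha
    obtain ⟨i, -, hi⟩ := ha
    obtain ⟨b, hb, rfl⟩ := Multiset.mem_map.1 hi
    refine ⟨i, ?_⟩
    rw [norm_mul, norm_pow, Complex.norm_real, Real.norm_of_nonneg (Real.rpow_nonneg h0.le _),
      G.norm_satake _ _ b hb, mul_one, Real.rpow_mul h0.le, Real.rpow_natCast]
  have att : ∀ (c : Fin π.k → ℝ) (v : P),
      π.A v = ∑ i, (G.satake (π.τ i) v).map (fun b => ((q ^ c i : ℝ) : ℂ) ^ deg v * b) →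
      ∀ i, ∃ a ∈ π.A v, ‖a‖ = q ^ (c i * deg v) := by
    intro c v hc i
    have hcard : 0 < (G.satake (π.τ i) v).card := by
      rw [G.card_satake]
      exact G.dim_pos _
    obtain ⟨b, hb⟩ := Multiset.card_pos_iff_exists_mem.1 hcard
    refine ⟨((q ^ c i : ℝ) : ℂ) ^ deg v * b, ?_, ?_⟩
    · rw [hc, Multiset.mem_sum]
      exact ⟨i, Finset.mem_univ i, Multiset.mem_map.2 ⟨b, hb, rfl⟩⟩
    · rw [norm_mul, norm_pow, Complex.norm_real, Real.norm_of_nonneg (Real.rpow_nonneg h0.le _),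
        G.norm_satake _ _ b hb, mul_one, Real.rpow_mul h0.le, Real.rpow_natCast]
  have hdpos : ∀ v, (0 : ℝ) < deg v := fun v => by exact_mod_cast hdeg v
  obtain ⟨v₀⟩ := ‹Nonempty P›
  obtain ⟨a₀, ha₀⟩ := Multiset.card_pos_iff_exists_mem.1 (by rw [π.card_A v₀]; exact hn)
  obtain ⟨i₀, -⟩ := nrm π.c v₀ (π.decomp v₀) a₀ ha₀
  obtain ⟨m, -, hm'⟩ := Finset.exists_max_image Finset.univ π.c ⟨i₀, Finset.mem_univ i₀⟩
  have hm : ∀ i, π.c i ≤ π.c m := fun i => hm' i (Finset.mem_univ i)
  -- the opposite exponents occur as well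
  have hneg : ∀ i, -π.c i ≤ π.c m := by
    intro i
    obtain ⟨a, ha, hna⟩ := att (fun i => -π.c i) v₀ (opp v₀) i
    obtain ⟨j, hj⟩ := nrm π.c v₀ (π.decomp v₀) a ha
    rw [hna] at hj
    have h1 := (Real.rpow_right_inj h0 hq.ne').1 hj
    have h2 : -π.c i = π.c j := mul_right_cancel₀ (hdpos v₀).ne' h1
    rw [h2]
    exact hm j
  have hκ0 : 0 ≤ π.c m := by linarith [hneg m]
  have hcp : ∀ v, 0 < paramsOn q deg π.A v (π.c m) := by
    classical
    intro v
    obtain ⟨a, ha, hna⟩ := att π.c v (π.decomp v) m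
    exact Multiset.card_pos_iff_exists_mem.2 ⟨a, Multiset.mem_filter.2 ⟨ha, hna⟩⟩
  have hcn : ∀ v, 0 < paramsOn q deg π.A v (-π.c m) := by
    classical
    intro v
    obtain ⟨a, ha, hna⟩ := att (fun i => -π.c i) v (opp v) m
    exact Multiset.card_pos_iff_exists_mem.2 ⟨a, Multiset.mem_filter.2 ⟨ha, hna⟩⟩
  refine ⟨m, hκ0, fun i => ⟨hm i, hneg i⟩, fun v => ⟨fun a ha => ?_, att π.c v (π.decomp v) m⟩,
    fun v => ⟨hcp v, hcn v⟩⟩
  obtain ⟨i, hi⟩ := nrm π.c v (π.decomp v) a ha
  rw [hi]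
  exact ⟨Real.rpow_le_rpow_of_exponent_le hq.le (by nlinarith [hneg i, hdpos v]),
    Real.rpow_le_rpow_of_exponent_le hq.le (by nlinarith [hm i, hdpos v])⟩

end

end Pool.Agent.W2helper62.RF
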